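import Pool.Agent.H754.Pretzel.Multi
import Pool.Agent.H754.Pretzel.Torelli
import Pool.Agent.H754.Pretzel.Blocks

/-!
# Connected sums of one-signed pretzel knots

For a sequence `q = (q₁, …, q_k)` of positive integers let `P(q)` be the pretzel link with these
parameters (an alternating link), and `P(-q)` its mirror image. The double branched cover of `P(-q)`
bounds the negative definite plumbing with a centre of weight `-k` and, for each `j`, a chain of
`q_j - 1` vertices of weight `-2` attached to the centre (`Black`); the double branched cover of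
`P(q)` bounds a manifold with the negative definite Goeritz form of the other checkerboard surface,
which has `k - 1` generators of square `-(q_i + q_{i+1})`, consecutive generators having the product
`q_{i+1}` (`White`).

Let `K` be the connected sum of the knots `P(-q_α)`, `α < n`, and `P(q'_β)`, `β < n'`. If `K` is
slice, then its double branched cover and the one of its mirror image bound rational homology balls,
and by Donaldson's theorem the sum of the lattices `Black(q_α)` and `White(q'_β)`, and also the sum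
of the lattices `Black(q'_β)` and `White(q_α)`, is embedded in the negative definite standard lattice
of the same rank (`Embeds`).

The theorem says that then the families `(q_α)` and `(q'_β)` are the same up to the order of the
sequences and of the entries of each sequence. So the summands of `K` cancel in pairs
`P(-q) # P(q^)`, where `q^` is a permutation of `q`, and `K` is a mutant of the ribbon knot which is the
sum of the `P(-q_α) # P(q_α)`.
-/

set_option autoImplicit false

namespace Pool.Agent.Results.MP_752436_gt.AlternatingPretzelSums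

open Matrix

/-- The vertices of the plumbing trees: for each sequence `q α 0, …, q α (k α - 1)` a centre and
`k α` chains with `q α j - 1` vertices. -/
inductive Black {n : ℕ} (k : Fin n → ℕ) (q : Fin n → ℕ → ℕ) : Type
  | centre (α : Fin n) : Black k q
  | chain (α : Fin n) (j : Fin (k α)) (s : Fin (q α j - 1)) : Black k q

/-- The intersection form of the disjoint union of the plumbing trees. -/
def blackForm {n : ℕ} (k : Fin n → ℕ) (q : Fin n → ℕ → ℕ) : Black k q → Black k q → ℤ
  | .centre α, .centre β => if α = β then -(k α : ℤ) else 0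
  | .centre α, .chain β _ s => if α = β ∧ (s : ℕ) = 0 then 1 else 0
  | .chain β _ s, .centre α => if α = β ∧ (s : ℕ) = 0 then 1 else 0
  | .chain α j s, .chain β l r =>
      if α = β ∧ (j : ℕ) = l then
        if (s : ℕ) = r then -2 else if (s : ℕ) + 1 = r ∨ (r : ℕ) + 1 = s then 1 else 0
      else 0

/-- The generators of the other Goeritz lattices: `k β - 1` generators for each sequence. -/
abbrev White {n : ℕ} (k : Fin n → ℕ) : Type := Σ β : Fin n, Fin (k β - 1)

/-- The form of these lattices. -/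
def whiteForm {n : ℕ} (k : Fin n → ℕ) (q : Fin n → ℕ → ℕ) (x y : White k) : ℤ :=
  if x.1 = y.1 then
    if (x.2 : ℕ) = y.2 then -((q x.1 x.2 : ℤ) + q x.1 (x.2 + 1))
    else if (x.2 : ℕ) + 1 = y.2 then q x.1 y.2
    else if (y.2 : ℕ) + 1 = x.2 then q x.1 x.2
    else 0
  else 0

/-- The number of vertices and generators. -/
def rank {n n' : ℕ} (k : Fin n → ℕ) (q : Fin n → ℕ → ℕ) (k' : Fin n' → ℕ) : ℕ :=
  ∑ α, (1 + ∑ j : Fin (k α), (q α j - 1)) + ∑ β, (k' β - 1)

/-- The orthogonal sum of the lattices `Black(q_α)` and `White(q'_β)` is embedded in the negative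
definite standard lattice of the same rank. -/
def Embeds {n n' : ℕ} (k : Fin n → ℕ) (q : Fin n → ℕ → ℕ) (k' : Fin n' → ℕ)
    (q' : Fin n' → ℕ → ℕ) : Prop :=
  ∃ V : Black k q ⊕ White k' → Fin (rank k q k') → ℤ,
    (∀ x y, -(V (.inl x) ⬝ᵥ V (.inl y)) = blackForm k q x y) ∧
    (∀ x y, -(V (.inr x) ⬝ᵥ V (.inr y)) = whiteForm k' q' x y) ∧
    ∀ x y, V (.inl x) ⬝ᵥ V (.inr y) = 0

open Pool.Agent.H754.Pretzel Finset

section

variable {n n' : ℕ} {k : Fin n → ℕ} {q : Fin n → ℕ → ℕ} {k' : Fin n' → ℕ} {q' : Fin n' → ℕ → ℕ}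

/-- the index type of the columns -/
abbrev Col (k : Fin n → ℕ) : Type := Σ α : Fin n, Fin (k α)

theorem card_fiber (k : Fin n → ℕ) (α : Fin n) :
    (univ.filter fun j : Col k => j.1 = α).card = k α := by
  rw [← Fintype.card_subtype]
  rw [Fintype.card_congr (Equiv.sigmaSubtype (β := fun a => Fin (k a)) α)]
  exact Fintype.card_fin _

/-- The stars of an embedding. -/
theorem stars {N : ℕ} (V : Black k q → Fin N → ℤ)
    (hV : ∀ x y, -(V x ⬝ᵥ V y) = blackForm k q x y) (hq : ∀ α (j : Fin (k α)), 3 ≤ q α j) :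
    ∃ (c : Fin n → Fin N → ℤ) (v : Col k → ℕ → Fin N → ℤ),
      Stars (fun j : Col k => j.1) (fun j : Col k => q j.1 j.2) c v ∧
      (∀ α, c α = V (.centre α)) ∧
      ∀ (j : Col k) s, s < q j.1 j.2 - 1 → ∃ x, v j s = V x := by
  have hdot : ∀ x y, V x ⬝ᵥ V y = -blackForm k q x y := fun x y => by rw [← hV]; ring
  let v : Col k → ℕ → Fin N → ℤ := fun j s =>
    if h : s < q j.1 j.2 - 1 then V (.chain j.1 j.2 ⟨s, h⟩) else 0
  have hv : ∀ (j : Col k) s (h : s < q j.1 j.2 - 1), v j s = V (.chain j.1 j.2 ⟨s, h⟩) :=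
    fun j s h => dif_pos h
  refine ⟨fun α => V (.centre α), v, ?_, fun _ => rfl, fun j s hs => ⟨_, hv j s hs⟩⟩
  refine ⟨?_, ?_, ?_, ?_, ?_, ?_, ?_, ?_⟩
  · intro α
    rw [hdot, card_fiber]; simp [blackForm]
  · intro j
    rw [hv j 0 (by have := hq j.1 j.2; omega), hdot]; simp [blackForm]
  · intro j α h
    rw [hv j 0 (by have := hq j.1 j.2; omega), hdot]
    simp only [blackForm]
    rw [if_neg]
    · rfl
    · rintro ⟨h', _⟩; exact h h'.symm
  · intro j α s h0 hs
    rw [hv j s hs, hdot]; simp [blackForm, h0.ne']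
  · intro j s hs
    rw [hv j s hs, hdot]; simp [blackForm]
  · intro j s hs
    rw [hv j s (by omega), hv j (s + 1) hs, hdot]; simp [blackForm]
  · intro j s r h hr
    rw [hv j s (by omega), hv j r hr, hdot]
    simp only [blackForm]
    rw [if_pos (by simp), if_neg (by omega), if_neg (by omega)]
    rfl
  · intro j l s r hjl hs hr
    rw [hv j s hs, hv l r hr, hdot]
    simp only [blackForm]
    rw [if_neg]
    · rfl
    · rintro ⟨h1, h2⟩
      apply hjl
      obtain ⟨α, j⟩ := j
      obtain ⟨β, l⟩ := l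
      simp only at h1 h2
      subst h1
      rw [Fin.ext h2]

/-- partial sums -/
def psum (k' : Fin n' → ℕ) (x : Col k' → ℤ) (β : Fin n') (i : ℕ) : ℤ :=
  ∑ l ∈ range (i + 1), if h : l < k' β then x ⟨β, ⟨l, h⟩⟩ else 0

/-- the root belonging to a generator -/
def gen (k' : Fin n' → ℕ) (y : White k') : Col k' → ℤ :=
  root ⟨y.1, ⟨y.2, by omega⟩⟩ ⟨y.1, ⟨y.2 + 1, by omega⟩⟩

theorem col_eq {β γ : Fin n'} {i : Fin (k' β)} {l : Fin (k' γ)} :
    ((⟨β, i⟩ : Col k') = ⟨γ, l⟩) ↔ β = γ ∧ (i : ℕ) = l := by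
  constructor
  · intro h
    obtain ⟨h1, h2⟩ := Sigma.mk.inj_iff.1 h
    subst h1
    rw [eq_of_heq h2]
    exact ⟨rfl, rfl⟩
  · rintro ⟨h1, h2⟩
    subst h1
    rw [Fin.ext h2]

theorem bil_gen (x y : White k') :
    bil (fun j : Col k' => q' j.1 j.2) (gen k' x) (gen k' y) = -whiteForm k' q' x y := by
  obtain ⟨β, i⟩ := x
  obtain ⟨γ, l⟩ := y
  have hi := i.2
  have hl := l.2
  unfold gen
  rw [bil_root, root_apply, root_apply]
  simp only [whiteForm, col_eq]
  by_cases h : β = γ
  · subst h
    simp only [true_and, if_true]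
    by_cases h1 : (i : ℕ) = l
    · have e1 : ¬ (i : ℕ) = l + 1 := by omega
      have e2 : ¬ (i : ℕ) + 1 = l := by omega
      have e3 : (i : ℕ) + 1 = l + 1 := by omega
      rw [if_pos h1, if_neg e1, if_neg e2, if_pos e3, if_pos h1]
      ring
    · by_cases h2 : (i : ℕ) + 1 = l
      · have e1 : ¬ (i : ℕ) = l + 1 := by omega
        have e3 : ¬ (i : ℕ) + 1 = l + 1 := by omega
        rw [if_neg h1, if_neg e1, if_pos h2, if_neg e3, if_neg h1, if_pos h2, h2]
        ring
      · by_cases h3 : (l : ℕ) + 1 = i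
        · have e3 : ¬ (i : ℕ) + 1 = l + 1 := by omega
          rw [if_neg h1, if_pos h3.symm, if_neg h2, if_neg e3, if_neg h1, if_neg h2, if_pos h3]
          ring
        · have e3 : ¬ (i : ℕ) + 1 = l + 1 := by omega
          rw [if_neg h1, if_neg (fun h => h3 h.symm), if_neg h2, if_neg e3, if_neg h1, if_neg h2,
            if_neg h3]
          ring
  · have h' : ¬ β = γ := h
    simp [h']

/-- a flow is a combination of the generators -/
theorem flow_eq (x : Col k' → ℤ) (hx : x ∈ flow (fun j : Col k' => j.1)) :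
    x = ∑ y : White k', psum k' x y.1 y.2 • gen k' y := by
  have hsum : ∀ β, ∑ l ∈ range (k' β), (if h : l < k' β then x ⟨β, ⟨l, h⟩⟩ else 0) = 0 := by
    intro β
    have h1 := hx β
    rw [sum_filter, Fintype.sum_sigma, sum_eq_single_of_mem β (mem_univ β)] at h1
    · simp only [if_true] at h1
      refine Eq.trans ?_ h1
      rw [← Fin.sum_univ_eq_sum_range (fun l => if h : l < k' β then x ⟨β, ⟨l, h⟩⟩ else 0)]
      apply sum_congr rfl
      intro i _
      rw [dif_pos i.2]
    · intro γ _ hγ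
      simp only
      apply sum_eq_zero
      intro i _
      rw [if_neg hγ]
  ext ⟨β, l⟩
  have hl := l.2
  rw [Finset.sum_apply, Fintype.sum_sigma, sum_eq_single_of_mem β (mem_univ β)]
  · have h2 : ∀ i : Fin (k' β - 1), (psum k' x β i • gen k' ⟨β, i⟩) ⟨β, l⟩ =
        (if (i : ℕ) = l then psum k' x β l else 0) -
          (if (i : ℕ) + 1 = l then psum k' x β (l - 1) else 0) := by
      intro i
      rw [Pi.smul_apply, smul_eq_mul, gen, root_apply]
      simp only [col_eq, true_and]
      by_cases c1 : (i : ℕ) = l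
      · have c2 : ¬ (i : ℕ) + 1 = l := by omega
        rw [if_pos c1.symm, if_neg (fun h => c2 h.symm), if_pos c1, if_neg c2, c1]
        ring
      · by_cases c2 : (i : ℕ) + 1 = l
        · have c3 : (l : ℕ) - 1 = i := by omega
          rw [if_neg (fun h => c1 h.symm), if_pos c2.symm, if_neg c1, if_pos c2, c3]
          ring
        · rw [if_neg (fun h => c1 h.symm), if_neg (fun h => c2 h.symm), if_neg c1, if_neg c2]
          ring
    rw [sum_congr rfl fun i _ => h2 i, sum_sub_distrib,
      Fin.sum_univ_eq_sum_range (fun i => if i = (l : ℕ) then psum k' x β l else 0),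
      Fin.sum_univ_eq_sum_range (fun i => if i + 1 = (l : ℕ) then psum k' x β (l - 1) else 0)]
    have h3 : ∑ i ∈ range (k' β - 1), (if i = (l : ℕ) then psum k' x β l else 0) =
        psum k' x β l := by
      by_cases c : (l : ℕ) < k' β - 1
      · rw [sum_ite_eq' (range _), if_pos (mem_range.2 c)]
      · rw [sum_ite_eq' (range _), if_neg (by rw [mem_range]; exact c)]
        unfold psum
        have : (l : ℕ) + 1 = k' β := by omega
        rw [this, hsum]
    have h4 : ∑ i ∈ range (k' β - 1), (if i + 1 = (l : ℕ) then psum k' x β (l - 1) else 0) =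
        if (l : ℕ) = 0 then 0 else psum k' x β (l - 1) := by
      by_cases c : (l : ℕ) = 0
      · rw [if_pos c]
        apply sum_eq_zero
        intro i _
        rw [if_neg (by omega)]
      · rw [if_neg c, sum_eq_single_of_mem ((l : ℕ) - 1) (mem_range.2 (by omega))]
        · rw [if_pos (by omega)]
        · intro i _ hi
          rw [if_neg (by omega)]
    rw [h3, h4]
    by_cases c : (l : ℕ) = 0
    · rw [if_pos c, sub_zero]
      unfold psum
      rw [c, sum_range_one, dif_pos (by omega)]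
      congr 2
      exact Fin.ext c
    · rw [if_neg c]
      unfold psum
      have : (l : ℕ) - 1 + 1 = l := by omega
      rw [this, sum_range_succ, dif_pos hl]
      simp
  · intro γ _ hγ
    apply sum_eq_zero
    intro i _
    rw [Pi.smul_apply, smul_eq_mul, gen, root_apply]
    simp only [col_eq]
    rw [if_neg (fun h => hγ h.1.symm), if_neg (fun h => hγ h.1.symm)]
    ring

/-- An embedding gives an isometric map between lattices of flows. -/
theorem isometry (hq : ∀ α (j : Fin (k α)), 3 ≤ q α j) (hq4 : ∀ α (j : Fin (k α)), q α j ≠ 4)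
    (h : Embeds k q k' q') (hN : rank k q k' = ∑ j : Col k, q j.1 j.2) :
    ∃ ψ : flow (fun j : Col k' => j.1) →+ flow (fun j : Col k => j.1),
      ∀ x y, bil (fun j : Col k => q j.1 j.2) (ψ x) (ψ y) =
        bil (fun j : Col k' => q' j.1 j.2) x y := by
  obtain ⟨V, hB, hW, hO⟩ := h
  obtain ⟨c, v, hs, hc, hv⟩ := stars (fun x => V (.inl x)) hB hq
  obtain ⟨F, hF⟩ := hs.flow (fun j : Col k => hq j.1 j.2) (fun j : Col k => hq4 j.1 j.2)
    (by rw [Fintype.card_fin]; exact hN)
  -- the vector of a flow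
  let Φ : (Col k' → ℤ) →+ (Fin (rank k q k') → ℤ) :=
    { toFun := fun x => ∑ y : White k', psum k' x y.1 y.2 • V (.inr y)
      map_zero' := by
        apply sum_eq_zero
        intro y _
        have : psum k' (0 : Col k' → ℤ) y.1 y.2 = 0 := by
          unfold psum
          apply sum_eq_zero
          intro l _
          split_ifs <;> rfl
        rw [this, zero_smul]
      map_add' := by
        intro x x'
        rw [← sum_add_distrib]
        apply sum_congr rfl
        intro y _
        rw [← add_smul]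
        congr 1
        unfold psum
        rw [← sum_add_distrib]
        apply sum_congr rfl
        intro l _
        split_ifs
        · rfl
        · rfl }
  have hΦ : ∀ x, Φ x = ∑ y : White k', psum k' x y.1 y.2 • V (.inr y) := fun x => rfl
  have horth : ∀ (z : Black k q) x, V (.inl z) ⬝ᵥ Φ x = 0 := by
    intro z x
    rw [hΦ, dotProduct_sum]
    apply sum_eq_zero
    intro y _
    rw [dotProduct_smul, hO, smul_zero]
  have hdot : ∀ x x' : Col k' → ℤ, x ∈ flow (fun j : Col k' => j.1) →
      x' ∈ flow (fun j : Col k' => j.1) →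
      Φ x ⬝ᵥ Φ x' = bil (fun j : Col k' => q' j.1 j.2) x x' := by
    intro x x' hx hx'
    have h1 : bil (fun j : Col k' => q' j.1 j.2) x x' =
        ∑ y : White k', ∑ y' : White k', psum k' x y.1 y.2 * psum k' x' y'.1 y'.2 *
          bil (fun j : Col k' => q' j.1 j.2) (gen k' y) (gen k' y') := by
      conv_lhs => rw [flow_eq x hx, flow_eq x' hx']
      unfold bil
      simp only [Finset.sum_apply, Pi.smul_apply, smul_eq_mul, mul_sum, sum_mul]
      rw [sum_comm]
      rw [sum_congr rfl fun y _ => sum_comm]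
      rw [sum_comm]
      apply sum_congr rfl
      intro y _
      apply sum_congr rfl
      intro y' _
      apply sum_congr rfl
      intro j _
      ring
    rw [h1, hΦ, hΦ, sum_dotProduct]
    apply sum_congr rfl
    intro y _
    rw [dotProduct_sum]
    apply sum_congr rfl
    intro y' _
    rw [smul_dotProduct, dotProduct_smul, bil_gen, ← hW]
    simp only [smul_eq_mul]
    ring
  have hcon : ∀ x : Col k' → ℤ, (∀ (j : Col k) s, s < q j.1 j.2 - 1 → v j s ⬝ᵥ Φ x = 0) ∧
      ∀ α, c α ⬝ᵥ Φ x = 0 := by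
    intro x
    refine ⟨fun j s hs => ?_, fun α => ?_⟩
    · obtain ⟨z, hz⟩ := hv j s hs
      rw [hz]
      exact horth z x
    · rw [hc]
      exact horth _ x
  let ψ : flow (fun j : Col k' => j.1) →+ flow (fun j : Col k => j.1) :=
    { toFun := fun x => ⟨F (Φ x), fun α =>
        (hF (Φ x) (Φ x) (hcon x).1 (hcon x).2 (hcon x).1).2 α⟩
      map_zero' := by
        apply Subtype.ext
        change F (Φ ((0 : flow (fun j : Col k' => j.1)) : Col k' → ℤ)) = 0
        rw [AddSubgroup.coe_zero, map_zero, map_zero]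
      map_add' := by
        intro x y
        apply Subtype.ext
        change F (Φ ((x + y : flow (fun j : Col k' => j.1)) : Col k' → ℤ)) = F (Φ x) + F (Φ y)
        rw [AddSubgroup.coe_add, map_add, map_add] }
  refine ⟨ψ, fun x y => ?_⟩
  rw [← hdot x y x.2 y.2, (hF (Φ x) (Φ y) (hcon x).1 (hcon x).2 (hcon y).1).1]
  rfl

theorem rank_eq (hq : ∀ α (j : Fin (k α)), 3 ≤ q α j) (hk : ∀ α, 1 ≤ k α) :
    rank k q k' + ∑ α, (k α - 1) = (∑ j : Col k, q j.1 j.2) + ∑ β, (k' β - 1) := by
  unfold rank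
  have h0 : ∑ j : Col k, q j.1 j.2 = ∑ α, ∑ j : Fin (k α), q α j := Fintype.sum_sigma _
  rw [h0]
  have h1 : ∑ α, (1 + ∑ j : Fin (k α), (q α j - 1)) + ∑ α, (k α - 1) =
      ∑ α, ∑ j : Fin (k α), q α j := by
    rw [← sum_add_distrib]
    apply sum_congr rfl
    intro α _
    have h2 : ∑ j : Fin (k α), q α j = ∑ j : Fin (k α), (q α j - 1) + k α := by
      have : ∑ j : Fin (k α), q α j = ∑ j : Fin (k α), ((q α j - 1) + 1) := by
        apply sum_congr rfl
        intro j _
        have := hq α j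
        omega
      rw [this, sum_add_distrib]
      simp
    have := hk α
    omega
  omega

theorem card_le_rank (hq : ∀ α (j : Fin (k α)), 3 ≤ q α j) (hq4 : ∀ α (j : Fin (k α)), q α j ≠ 4)
    (h : Embeds k q k' q') : ∑ j : Col k, q j.1 j.2 ≤ rank k q k' := by
  obtain ⟨V, hB, hW, hO⟩ := h
  obtain ⟨c, v, hs, hc, hv⟩ := stars (fun x => V (.inl x)) hB hq
  have := hs.card_le (fun j : Col k => hq j.1 j.2) (fun j : Col k => hq4 j.1 j.2)
  rwa [Fintype.card_fin] at this

end

section

variable {n n' : ℕ} {k : Fin n → ℕ} {q : Fin n → ℕ → ℕ} {k' : Fin n' → ℕ} {q' : Fin n' → ℕ → ℕ}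

/-- the index set of the standard lattice: the disjoint union of the blocks -/
abbrev Idx (k : Fin n → ℕ) (q : Fin n → ℕ → ℕ) : Type := Σ j : Col k, Fin (q j.1 j.2)

/-- the embedding for families which are the same up to order -/
def emb (σ : Col k' → Col k) : Black k q ⊕ White k' → Idx k q → ℤ
  | .inl (.centre α) => fun r => if r.1.1 = α ∧ (r.2 : ℕ) = 0 then -1 else 0
  | .inl (.chain α j s) =>
      ev (J := Col k) (q := fun j => q j.1 j.2) ⟨⟨α, j⟩, ⟨s, by change (s : ℕ) < q α j; omega⟩⟩ -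
        ev ⟨⟨α, j⟩, ⟨s + 1, by change (s : ℕ) + 1 < q α j; omega⟩⟩
  | .inr y => fun r => root (σ ⟨y.1, ⟨y.2, by omega⟩⟩) (σ ⟨y.1, ⟨y.2 + 1, by omega⟩⟩) r.1

theorem ev_eq (j l : Col k) (s : Fin (q j.1 j.2)) (r : Fin (q l.1 l.2)) :
    ev (J := Col k) (q := fun j => q j.1 j.2) ⟨j, s⟩ ⟨l, r⟩ =
      if j = l ∧ (s : ℕ) = r then 1 else 0 := by
  rw [ev, Pi.single_apply]
  by_cases h : j = l
  · subst h
    by_cases h' : (s : ℕ) = r
    · have : s = r := Fin.ext h'
      subst this
      simp
    · rw [if_neg, if_neg]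
      · exact fun h => h' h.2
      · intro h
        apply h'
        have := (Sigma.mk.inj_iff.1 h).2
        rw [eq_of_heq this]
  · rw [if_neg, if_neg]
    · exact fun h' => h h'.1
    · intro h'
      exact h (congrArg Sigma.fst h').symm

theorem chain_dot (σ : Col k' → Col k) (α : Fin n) (j : Fin (k α)) (s : Fin (q α j - 1))
    (u : Idx k q → ℤ) : emb (k' := k') σ (.inl (.chain α j s)) ⬝ᵥ u =
      u ⟨⟨α, j⟩, ⟨s, by change (s : ℕ) < q α j; omega⟩⟩ -
        u ⟨⟨α, j⟩, ⟨s + 1, by change (s : ℕ) + 1 < q α j; omega⟩⟩ := by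
  rw [emb, sub_dotProduct, ev, ev, single_dotProduct, single_dotProduct, one_mul, one_mul]

theorem emb_black (hq : ∀ α (j : Fin (k α)), 3 ≤ q α j) (σ : Col k' → Col k) (x y : Black k q) :
    -(emb (k' := k') σ (.inl x) ⬝ᵥ emb σ (.inl y)) = blackForm k q x y := by
  have hcc : ∀ α β, emb (k' := k') (q := q) σ (.inl (.centre α)) ⬝ᵥ emb σ (.inl (.centre β)) =
      if α = β then (k α : ℤ) else 0 := by
    intro α β
    rw [dotProduct, Fintype.sum_sigma]
    have h1 : ∀ j : Col k, ∑ s : Fin (q j.1 j.2),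
        emb (k' := k') (q := q) σ (.inl (.centre α)) ⟨j, s⟩ *
          emb (k' := k') (q := q) σ (.inl (.centre β)) ⟨j, s⟩ =
        if j.1 = α then (if α = β then 1 else 0) else 0 := by
      intro j
      rw [sum_eq_single_of_mem (⟨0, by have := hq j.1 j.2; omega⟩ : Fin (q j.1 j.2)) (mem_univ _)]
      · simp only [emb]
        by_cases c1 : j.1 = α
        · by_cases c2 : α = β
          · rw [if_pos ⟨c1, trivial⟩, if_pos ⟨c1.trans c2, trivial⟩, if_pos c1, if_pos c2]; norm_num
          · rw [if_neg (fun h : j.1 = β ∧ _ => c2 (c1.symm.trans h.1)), if_pos c1, if_neg c2]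
            ring
        · rw [if_neg (fun h : j.1 = α ∧ _ => c1 h.1), if_neg c1]; ring
      · intro s _ hs
        have : (s : ℕ) ≠ 0 := fun h => hs (Fin.ext h)
        simp [emb, this]
    rw [sum_congr rfl fun j _ => h1 j, ← sum_filter, sum_const, card_fiber]
    by_cases c2 : α = β <;> simp [c2]
  rcases x with α | ⟨α, j, s⟩ <;> rcases y with β | ⟨β, l, r⟩
  · rw [hcc]
    simp only [blackForm]
    split_ifs <;> simp
  · rw [dotProduct_comm, chain_dot]
    simp only [emb, blackForm]
    by_cases c1 : β = α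
    · have c1' : α = β := c1.symm
      by_cases c2 : (r : ℕ) = 0 <;> simp [c1, c2]
    · have c1' : ¬ α = β := fun h => c1 h.symm
      simp [c1, c1']
  · rw [chain_dot]
    simp only [emb, blackForm]
    by_cases c1 : α = β
    · have c1' : β = α := c1.symm
      by_cases c2 : (s : ℕ) = 0 <;> simp [c1, c2]
    · have c1' : ¬ β = α := fun h => c1 h.symm
      simp [c1, c1']
  · rw [chain_dot]
    simp only [emb, Pi.sub_apply, ev_eq, blackForm, col_eq]
    by_cases hjl : α = β ∧ (j : ℕ) = l
    · have hlj : β = α ∧ (l : ℕ) = j := ⟨hjl.1.symm, hjl.2.symm⟩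
      simp only [hjl, true_and, if_true, and_self]
      by_cases h1 : (s : ℕ) = r
      · have e1 : (r : ℕ) = s := h1.symm
        have e2 : ¬ ((r : ℕ) + 1 = s) := by omega
        have e3 : ¬ ((r : ℕ) = s + 1) := by omega
        have e4 : ((r : ℕ) + 1 = s + 1) := by omega
        rw [if_pos e1, if_neg e2, if_neg e3, if_pos e4, if_pos h1]
        norm_num
      · by_cases h2 : (s : ℕ) + 1 = r
        · have e1 : ¬ ((r : ℕ) = s) := by omega
          have e2 : ¬ ((r : ℕ) + 1 = s) := by omega
          have e3 : ((r : ℕ) = s + 1) := by omega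
          have e4 : ¬ ((r : ℕ) + 1 = s + 1) := by omega
          rw [if_neg e1, if_neg e2, if_pos e3, if_neg e4, if_neg h1, if_pos (Or.inl h2)]
          norm_num
        · by_cases h3 : (r : ℕ) + 1 = s
          · have e1 : ¬ ((r : ℕ) = s) := by omega
            have e3 : ¬ ((r : ℕ) = s + 1) := by omega
            have e4 : ¬ ((r : ℕ) + 1 = s + 1) := by omega
            rw [if_neg e1, if_pos h3, if_neg e3, if_neg e4, if_neg h1, if_pos (Or.inr h3)]
            norm_num
          · have e1 : ¬ ((r : ℕ) = s) := by omega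
            have e3 : ¬ ((r : ℕ) = s + 1) := by omega
            have e4 : ¬ ((r : ℕ) + 1 = s + 1) := by omega
            rw [if_neg e1, if_neg h3, if_neg e3, if_neg e4, if_neg h1,
              if_neg (by rintro (h | h) <;> contradiction)]
            norm_num
    · have hlj : ¬ (β = α ∧ (l : ℕ) = j) := fun h => hjl ⟨h.1.symm, h.2.symm⟩
      rw [if_neg (fun h => hlj h.1), if_neg (fun h => hlj h.1), if_neg (fun h => hlj h.1),
        if_neg (fun h => hlj h.1), if_neg hjl]
      norm_num

theorem embeds_of (hq : ∀ α (j : Fin (k α)), 3 ≤ q α j) (σ : Col k' ≃ Col k)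
    (hσ : ∀ x y : Col k', x.1 = y.1 → (σ x).1 = (σ y).1)
    (hqq : ∀ x : Col k', q' x.1 x.2 = q (σ x).1 (σ x).2)
    (hN : rank k q k' = ∑ j : Col k, q j.1 j.2) : Embeds k q k' q' := by
  have hcard : Fintype.card (Idx k q) = rank k q k' := by
    rw [hN, Fintype.card_sigma]
    simp
  let e : Idx k q ≃ Fin (rank k q k') := Fintype.equivFinOfCardEq hcard
  have hdot : ∀ u v : Idx k q → ℤ, (fun t => u (e.symm t)) ⬝ᵥ (fun t => v (e.symm t)) = u ⬝ᵥ v := by
    intro u v
    rw [dotProduct, dotProduct, ← e.symm.sum_comp]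
  refine ⟨fun x t => emb σ x (e.symm t), fun x y => ?_, fun x y => ?_, fun x y => ?_⟩
  · rw [hdot]
    exact emb_black hq σ x y
  · rw [hdot]
    have h1 : emb (q := q) σ (.inr x) ⬝ᵥ emb (q := q) σ (.inr y) =
        bil (fun j : Col k' => q' j.1 j.2) (gen k' x) (gen k' y) := by
      rw [dotProduct, Fintype.sum_sigma, bil, ← σ.sum_comp]
      apply sum_congr rfl
      intro j _
      simp only [emb]
      rw [sum_const, card_univ, Fintype.card_fin, nsmul_eq_mul, hqq]
      have h2 : ∀ a b : Col k', root (σ a) (σ b) (σ j) = root a b j := by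
        intro a b
        rw [root_apply, root_apply]
        simp only [σ.injective.eq_iff]
      rw [h2, h2, gen, gen]
      ring
    rw [h1, bil_gen]
    ring
  · rw [hdot]
    rcases x with α | ⟨α, j, s⟩
    · have hst : (σ ⟨y.1, ⟨y.2, by omega⟩⟩).1 = (σ ⟨y.1, ⟨y.2 + 1, by omega⟩⟩).1 := hσ _ _ rfl
      have h1 := root_mem (st := fun j : Col k => j.1) hst α
      rw [dotProduct, Fintype.sum_sigma]
      have h2 : ∀ j : Col k, ∑ s : Fin (q j.1 j.2), emb (k' := k') (q := q) σ
          (.inl (.centre α)) ⟨j, s⟩ * emb (q := q) σ (.inr y) ⟨j, s⟩ =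
          if j.1 = α then -root (σ ⟨y.1, ⟨y.2, by omega⟩⟩) (σ ⟨y.1, ⟨y.2 + 1, by omega⟩⟩) j
          else 0 := by
        intro j
        rw [sum_eq_single_of_mem (⟨0, by have := hq j.1 j.2; omega⟩ : Fin (q j.1 j.2))
          (mem_univ _)]
        · simp only [emb]
          by_cases c1 : j.1 = α
          · rw [if_pos ⟨c1, trivial⟩, if_pos c1]; ring
          · rw [if_neg (fun h : j.1 = α ∧ _ => c1 h.1), if_neg c1]; ring
        · intro s _ hs
          have : (s : ℕ) ≠ 0 := fun h => hs (Fin.ext h)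
          simp [emb, this]
      rw [sum_congr rfl fun j _ => h2 j, ← sum_filter, sum_neg_distrib, h1, neg_zero]
    · rw [chain_dot]
      simp [emb]

theorem backward (hk : ∀ α, 3 ≤ k α) (hk' : ∀ β, 3 ≤ k' β)
    (hq : ∀ α (j : Fin (k α)), 3 ≤ q α j) (π : Fin n ≃ Fin n')
    (ρ : ∀ α, Fin (k α) ≃ Fin (k' (π α))) (h : ∀ α (j : Fin (k α)), q α j = q' (π α) (ρ α j)) :
    Embeds k q k' q' ∧ Embeds k' q' k q := by
  let τ : Col k ≃ Col k' := Equiv.sigmaCongr π ρ
  have hτ : ∀ x : Col k, τ x = ⟨π x.1, ρ x.1 x.2⟩ := fun x => rfl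
  have hkk : ∀ α, k' (π α) = k α := fun α => by
    have := Fintype.card_congr (ρ α)
    simpa using this.symm
  have hsum : ∑ β, (k' β - 1) = ∑ α, (k α - 1) := by
    rw [← π.sum_comp]
    exact sum_congr rfl fun α _ => by rw [hkk]
  have hqτ : ∀ x : Col k, q x.1 x.2 = q' (τ x).1 (τ x).2 := fun x => h x.1 x.2
  have hq' : ∀ β (j : Fin (k' β)), 3 ≤ q' β j := by
    intro β j
    obtain ⟨x, hx⟩ := τ.surjective ⟨β, j⟩
    have h1 := hqτ x
    rw [hx] at h1
    rw [← h1]
    exact hq _ _
  have e1 := rank_eq (k := k) (q := q) (k' := k') hq (fun α => by have := hk α; omega)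
  have e2 := rank_eq (k := k') (q := q') (k' := k) hq' (fun α => by have := hk' α; omega)
  refine ⟨embeds_of hq τ.symm ?_ ?_ (by omega), embeds_of hq' τ ?_ hqτ (by omega)⟩
  · intro x y hxy
    obtain ⟨x, rfl⟩ := τ.surjective x
    obtain ⟨y, rfl⟩ := τ.surjective y
    rw [τ.symm_apply_apply, τ.symm_apply_apply]
    rw [hτ, hτ] at hxy
    exact π.injective hxy
  · intro x
    obtain ⟨x, rfl⟩ := τ.surjective x
    rw [τ.symm_apply_apply]
    exact (hqτ x).symm
  · intro x y hxy
    rw [hτ, hτ]
    exact congrArg π hxy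

end

/-- Let `(q_α)`, `α < n`, and `(q'_β)`, `β < n'`, be two families of sequences, of lengths
`k α ≥ 3` and `k' β ≥ 3`, of integers `≥ 3` different from `4`. The orthogonal sum of the lattices
`Black(q_α)` and `White(q'_β)` is embedded in the standard lattice of the same rank, and the same is
true with the two families exchanged, if and only if the families are the same up to a bijection `π`
of the sequences and bijections of the entries. -/
theorem result (n n' : ℕ) (k : Fin n → ℕ) (q : Fin n → ℕ → ℕ) (k' : Fin n' → ℕ)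
    (q' : Fin n' → ℕ → ℕ) (hk : ∀ α, 3 ≤ k α) (hk' : ∀ β, 3 ≤ k' β)
    (hq : ∀ α (j : Fin (k α)), 3 ≤ q α j ∧ q α j ≠ 4)
    (hq' : ∀ β (j : Fin (k' β)), 3 ≤ q' β j ∧ q' β j ≠ 4) :
    (Embeds k q k' q' ∧ Embeds k' q' k q) ↔
      ∃ π : Fin n ≃ Fin n', ∀ α, ∃ ρ : Fin (k α) ≃ Fin (k' (π α)),
        ∀ j : Fin (k α), q α j = q' (π α) (ρ j) := by
  refine ⟨?_, ?_⟩
  swap
  · rintro ⟨π, h⟩
    choose ρ hρ using h
    exact backward hk hk' (fun α j => (hq α j).1) π ρ hρ
  rintro ⟨h, h'⟩
  have e1 := rank_eq (k := k) (q := q) (k' := k') (fun α j => (hq α j).1)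
    (fun α => by have := hk α; omega)
  have e2 := rank_eq (k := k') (q := q') (k' := k) (fun α j => (hq' α j).1)
    (fun α => by have := hk' α; omega)
  have l1 := card_le_rank (fun α j => (hq α j).1) (fun α j => (hq α j).2) h
  have l2 := card_le_rank (fun α j => (hq' α j).1) (fun α j => (hq' α j).2) h'
  obtain ⟨ψ, hψ⟩ := isometry (fun α j => (hq α j).1) (fun α j => (hq α j).2) h (by omega)
  obtain ⟨ψ', hψ'⟩ := isometry (fun α j => (hq' α j).1) (fun α j => (hq' α j).2) h' (by omega)
  have p : ∀ j : Col k, 0 < q j.1 j.2 := fun j => by have := (hq j.1 j.2).1; omega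
  have p' : ∀ j : Col k', 0 < q' j.1 j.2 := fun j => by have := (hq' j.1 j.2).1; omega
  -- the map `ψ'` is onto
  have hsurj : Function.Surjective ψ' := by
    have h1 := surj_endo p' (ψ'.comp ψ) (fun x y => by
      rw [AddMonoidHom.comp_apply, AddMonoidHom.comp_apply, hψ', hψ])
    intro y
    obtain ⟨x, hx⟩ := h1 y
    exact ⟨ψ x, hx⟩
  have three : ∀ {m : ℕ} (κ : Fin m → ℕ), (∀ α, 3 ≤ κ α) → ∀ α : Fin m, ∃ j₀ j₁ j₂ : Col κ,
      j₀.1 = α ∧ j₁.1 = α ∧ j₂.1 = α ∧ j₀ ≠ j₁ ∧ j₀ ≠ j₂ ∧ j₁ ≠ j₂ := by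
    intro m κ hκ α
    have := hκ α
    refine ⟨⟨α, ⟨0, by omega⟩⟩, ⟨α, ⟨1, by omega⟩⟩, ⟨α, ⟨2, by omega⟩⟩, rfl, rfl, rfl, ?_, ?_, ?_⟩
    all_goals
      intro h
      have := (col_eq.1 h).2
      simp at this
  obtain ⟨π, hπ⟩ := torelli p' p hψ' hsurj (three k' hk') (three k hk)
  refine ⟨π, fun α => ?_⟩
  obtain ⟨ρ, hρ⟩ := hπ α
  let f : Fin (k α) ≃ {j : Col k // j.1 = α} := (Equiv.sigmaSubtype (β := fun a => Fin (k a)) α).symm
  let f' : {j : Col k' // j.1 = π α} ≃ Fin (k' (π α)) :=
    Equiv.sigmaSubtype (β := fun a => Fin (k' a)) (π α)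
  refine ⟨(f.trans ρ).trans f', fun j => ?_⟩
  have h1 := hρ (f j)
  have h2 : q (f j).1.1 (f j).1.2 = q α j := rfl
  have h3 : ∀ x : {j : Col k' // j.1 = π α}, q' x.1.1 x.1.2 = q' (π α) (f' x) := by
    rintro ⟨⟨β, l⟩, hβ⟩
    simp only at hβ
    subst hβ
    rfl
  rw [← h2, h1, h3]
  rfl

end Pool.Agent.Results.MP_752436_gt.AlternatingPretzelSums
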