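import Pool.Agent.H754.Pretzel.Embed
import Pool.Agent.H754.Pretzel.Blocks

/-!
# Slice odd pretzel knots are mutant ribbon: the lattice theorem for any number of strands

Let `K = P(p₁, …, p_m, -q₁, …, -q_{m+1})` be a pretzel knot all whose `n = 2 m + 1` parameters are
odd and different from `1`, `-1`. Up to mirror images all odd pretzel knots of signature `0` are of
this form, with `∑ 1 / p_i < ∑ 1 / q_j`. The double branched cover `Y` of `K` bounds the negative
definite plumbing with the following tree: a centre of weight `-(m + 1)`, for each `j` a chain of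
`q_j - 1` vertices of weight `-2` attached to the centre, and for each `i` a leaf of weight `-p_i`
attached to the centre. Here `form` is the intersection form of this plumbing, of rank `N = ∑ q_j`.

If `K` is slice, then `Y` bounds a rational homology ball; by Donaldson's theorem and by the formula
of Ozsváth and Szabó for the correction terms of `Y` (the plumbing is sharp) there is an embedding of
the plumbing lattice in the negative definite standard lattice of the same rank such that each
characteristic vector is congruent modulo `2 Λ` (`Λ` the image of the embedding) to a vector all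
whose entries are `1` or `-1` (`Admissible`; this is the condition used by Greene and Jabuka for
`n = 3`).

The theorem says that this is so if and only if the `p_i` are `m` of the numbers `q_1, …, q_{m+1}`,
that is, if and only if `K` is a mutant of the ribbon knot `P(p₁, -p₁, …, p_m, -p_m, -q)`. So every
slice odd pretzel knot (with parameters different from `1`, `-1`) is mutant ribbon.
-/

set_option autoImplicit false

namespace Pool.Agent.Results.MP_752436_gt.OddPretzelKnots

open Matrix

/-- The vertices of the plumbing tree: the centre, the `q j - 1` vertices of the `j`-th chain, and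
the leaves. -/
inductive Vertex {m : ℕ} (q : Fin (m + 1) → ℕ) : Type
  | centre : Vertex q
  | chain (j : Fin (m + 1)) (s : Fin (q j - 1)) : Vertex q
  | leaf (i : Fin m) : Vertex q

/-- The intersection form of the plumbing: the centre has weight `-(m + 1)`, the vertices of the chains
have weight `-2`, the leaves have weights `-p i`; the first vertex of each chain and the leaves are
adjacent to the centre, and consecutive vertices of a chain are adjacent. -/
def form {m : ℕ} (p : Fin m → ℕ) (q : Fin (m + 1) → ℕ) : Vertex q → Vertex q → ℤ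
  | .centre, .centre => -((m : ℤ) + 1)
  | .centre, .chain _ s => if (s : ℕ) = 0 then 1 else 0
  | .chain _ s, .centre => if (s : ℕ) = 0 then 1 else 0
  | .centre, .leaf _ => 1
  | .leaf _, .centre => 1
  | .chain j s, .chain l r =>
      if j = l then
        if (s : ℕ) = r then -2 else if (s : ℕ) + 1 = r ∨ (r : ℕ) + 1 = s then 1 else 0
      else 0
  | .chain _ _, .leaf _ => 0
  | .leaf _, .chain _ _ => 0
  | .leaf i, .leaf l => if i = l then -(p i : ℤ) else 0

/-- The plumbing lattice has an embedding in the negative definite standard lattice of rank `∑ q_j`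
such that each characteristic vector (all entries odd) is congruent modulo twice the image of the
lattice to a vector with entries `1` and `-1`. -/
def Admissible {m : ℕ} (p : Fin m → ℕ) (q : Fin (m + 1) → ℕ) : Prop :=
  ∃ V : Vertex q → Fin (∑ j, q j) → ℤ,
    (∀ x y, -(V x ⬝ᵥ V y) = form p q x y) ∧
      ∀ x : Fin (∑ j, q j) → ℤ, (∀ t, Odd (x t)) →
        ∃ e : Fin (∑ j, q j) → ℤ, (∀ t, e t = 1 ∨ e t = -1) ∧
          ∃ l ∈ AddSubgroup.closure (Set.range V), x = e + 2 • l

open Pool.Agent.H754.Pretzel Finset

theorem forward {m : ℕ} (p : Fin m → ℕ) (q : Fin (m + 1) → ℕ) (hq : ∀ j, 3 ≤ q j)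
    (hq4 : ∀ j, q j ≠ 4) (h : Admissible p q) :
    ∃ σ : Fin m → Fin (m + 1), Function.Injective σ ∧ ∀ i, p i = q (σ i) := by
  obtain ⟨V, hV, hcov⟩ := h
  have hdot : ∀ x y, V x ⬝ᵥ V y = -form p q x y := fun x y => by rw [← hV]; ring
  let v : Fin (m + 1) → ℕ → Fin (∑ j, q j) → ℤ := fun j s =>
    if h : s < q j - 1 then V (.chain j ⟨s, h⟩) else 0
  have hv : ∀ j s (h : s < q j - 1), v j s = V (.chain j ⟨s, h⟩) := fun j s h => dif_pos h
  have star : Star q (V .centre) v (fun i => V (.leaf i)) := by
    refine ⟨?_, ?_, ?_, ?_, ?_, ?_, ?_, ?_, ?_, ?_⟩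
    · rw [hdot]; simp [form]
    · intro j
      rw [hv j 0 (by have := hq j; omega), hdot]; simp [form]
    · intro j s h0 hs
      rw [hv j s hs, hdot]; simp [form, h0.ne']
    · intro j s hs
      rw [hv j s hs, hdot]; simp [form]
    · intro j s hs
      rw [hv j s (by omega), hv j (s + 1) hs, hdot]; simp [form]
    · intro j s r h hr
      rw [hv j s (by omega), hv j r hr, hdot]
      simp only [form, if_true]
      rw [if_neg (by omega), if_neg (by omega)]
      rfl
    · intro j l s r hjl hs hr
      rw [hv j s hs, hv l r hr, hdot]; simp [form, hjl]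
    · intro i j s hs
      rw [hv j s hs, hdot]; simp [form]
    · intro i
      rw [hdot]; simp [form]
    · intro i l hil
      rw [hdot]; simp [form, hil]
  obtain ⟨σ, hσ, hσ'⟩ := star.matched (by simp) hq hq4 (by simp)
    (AddSubgroup.closure (Set.range V)) (by
      apply AddSubgroup.closure_mono
      rintro _ ⟨x, rfl⟩
      rcases x with _ | ⟨j, s⟩ | i
      · exact Or.inl (Or.inl rfl)
      · exact Or.inl (Or.inr ⟨j, s, s.2, (hv j s s.2).symm⟩)
      · exact Or.inr ⟨i, rfl⟩) hcov
  refine ⟨σ, hσ, fun i => ?_⟩
  have := hσ' i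
  rw [hdot] at this
  simp only [form, if_true, neg_neg] at this
  exact_mod_cast this

/-- the embedding for matched parameters, with index set the disjoint union of the blocks -/
def emb {m : ℕ} {q : Fin (m + 1) → ℕ} (σ : Fin m → Fin (m + 1)) :
    Vertex q → (Σ j, Fin (q j)) → ℤ
  | .centre => fun r => if (r.2 : ℕ) = 0 then -1 else 0
  | .chain j s => ev ⟨j, ⟨s, by omega⟩⟩ - ev ⟨j, ⟨s + 1, by omega⟩⟩
  | .leaf i => fun r => if r.1 = σ i then 1 else 0

theorem ev_dot {m : ℕ} {q : Fin (m + 1) → ℕ} (r : Σ j, Fin (q j)) (u : (Σ j, Fin (q j)) → ℤ) :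
    ev r ⬝ᵥ u = u r := by
  rw [ev, single_dotProduct, one_mul]

theorem ev_apply {m : ℕ} {q : Fin (m + 1) → ℕ} (j l : Fin (m + 1)) (s : Fin (q j))
    (r : Fin (q l)) : ev (q := q) ⟨j, s⟩ ⟨l, r⟩ = if j = l ∧ (s : ℕ) = r then 1 else 0 := by
  rw [ev, Pi.single_apply]
  by_cases h : j = l
  · subst h
    by_cases h' : (s : ℕ) = r
    · have : s = r := Fin.ext h'
      subst this
      simp
    · rw [if_neg, if_neg]
      · exact fun h => h' h.2
      · intro h
        apply h'
        have := (Sigma.mk.inj_iff.1 h).2
        rw [eq_of_heq this]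
  · rw [if_neg, if_neg]
    · exact fun h' => h h'.1
    · intro h'
      exact h (congrArg Sigma.fst h').symm

theorem emb_form {m : ℕ} {p : Fin m → ℕ} {q : Fin (m + 1) → ℕ} (hq : ∀ j, 3 ≤ q j)
    {σ : Fin m → Fin (m + 1)} (hσ : Function.Injective σ) (hpq : ∀ i, p i = q (σ i)) :
    ∀ x y : Vertex q, -(emb σ x ⬝ᵥ emb σ y) = form p q x y := by
  have hcc : emb (q := q) σ .centre ⬝ᵥ emb σ .centre = (m : ℤ) + 1 := by
    rw [dotProduct, Fintype.sum_sigma]
    have : ∀ j : Fin (m + 1), ∑ s : Fin (q j), emb (q := q) σ .centre ⟨j, s⟩ *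
        emb σ .centre ⟨j, s⟩ = 1 := by
      intro j
      rw [sum_eq_single_of_mem (⟨0, by have := hq j; omega⟩ : Fin (q j)) (mem_univ _)]
      · simp [emb]
      · intro s _ hs
        have : (s : ℕ) ≠ 0 := fun h => hs (Fin.ext h)
        simp [emb, this]
    rw [sum_congr rfl fun j _ => this j]
    simp
  have hchain : ∀ j s (u : (Σ j, Fin (q j)) → ℤ), emb (q := q) σ (.chain j s) ⬝ᵥ u =
      u ⟨j, ⟨s, by omega⟩⟩ - u ⟨j, ⟨s + 1, by omega⟩⟩ := by
    intro j s u
    rw [emb, sub_dotProduct, ev_dot, ev_dot]
  have hlc : ∀ i, emb (q := q) σ (.leaf i) ⬝ᵥ emb σ .centre = -1 := by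
    intro i
    rw [dotProduct, Fintype.sum_sigma, sum_eq_single_of_mem (σ i) (mem_univ _)]
    · rw [sum_eq_single_of_mem (⟨0, by have := hq (σ i); omega⟩ : Fin (q (σ i))) (mem_univ _)]
      · simp [emb]
      · intro s _ hs
        have : (s : ℕ) ≠ 0 := fun h => hs (Fin.ext h)
        simp [emb, this]
    · intro j _ hj
      apply sum_eq_zero
      intro s _
      simp [emb, hj]
  have hll : ∀ i l, emb (q := q) σ (.leaf i) ⬝ᵥ emb σ (.leaf l) =
      if i = l then (p i : ℤ) else 0 := by
    intro i l
    rw [dotProduct, Fintype.sum_sigma, sum_eq_single_of_mem (σ i) (mem_univ _)]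
    · by_cases hil : i = l
      · subst hil
        simp [emb, hpq]
      · rw [if_neg hil]
        apply sum_eq_zero
        intro s _
        have : σ i ≠ σ l := fun h => hil (hσ h)
        simp [emb, this]
    · intro j _ hj
      apply sum_eq_zero
      intro s _
      simp [emb, hj]
  rintro (_ | ⟨j, s⟩ | i) (_ | ⟨l, r⟩ | k)
  · rw [hcc]; rfl
  · rw [dotProduct_comm, hchain]
    by_cases h : (r : ℕ) = 0 <;> simp [emb, form, h]
  · rw [dotProduct_comm, hlc]; simp [form]
  · rw [hchain]
    by_cases h : (s : ℕ) = 0 <;> simp [emb, form, h]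
  · rw [hchain]
    simp only [emb, Pi.sub_apply, ev_apply, form]
    have hs := s.2
    have hr := r.2
    by_cases hjl : j = l
    · subst hjl
      simp only [true_and, if_true]
      by_cases h1 : (s : ℕ) = r
      · have e1 : (r : ℕ) = s := h1.symm
        have e2 : ¬ ((r : ℕ) + 1 = s) := by omega
        have e3 : ¬ ((r : ℕ) = s + 1) := by omega
        have e4 : ((r : ℕ) + 1 = s + 1) := by omega
        rw [if_pos e1, if_neg e2, if_neg e3, if_pos e4, if_pos h1]
        norm_num
      · by_cases h2 : (s : ℕ) + 1 = r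
        · have e1 : ¬ ((r : ℕ) = s) := by omega
          have e2 : ¬ ((r : ℕ) + 1 = s) := by omega
          have e3 : ((r : ℕ) = s + 1) := by omega
          have e4 : ¬ ((r : ℕ) + 1 = s + 1) := by omega
          rw [if_neg e1, if_neg e2, if_pos e3, if_neg e4, if_neg h1, if_pos (Or.inl h2)]
          norm_num
        · by_cases h3 : (r : ℕ) + 1 = s
          · have e1 : ¬ ((r : ℕ) = s) := by omega
            have e3 : ¬ ((r : ℕ) = s + 1) := by omega
            have e4 : ¬ ((r : ℕ) + 1 = s + 1) := by omega
            rw [if_neg e1, if_pos h3, if_neg e3, if_neg e4, if_neg h1, if_pos (Or.inr h3)]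
            norm_num
          · have e1 : ¬ ((r : ℕ) = s) := by omega
            have e3 : ¬ ((r : ℕ) = s + 1) := by omega
            have e4 : ¬ ((r : ℕ) + 1 = s + 1) := by omega
            rw [if_neg e1, if_neg h3, if_neg e3, if_neg e4, if_neg h1,
              if_neg (by rintro (h | h) <;> contradiction)]
            norm_num
    · have hlj : ¬ l = j := fun h => hjl h.symm
      simp [hjl, hlj]
  · rw [hchain]; simp [emb, form]
  · rw [hlc]; simp [form]
  · rw [dotProduct_comm, hchain]; simp [emb, form]
  · rw [hll]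
    by_cases h : i = k <;> simp [form, h]

theorem emb_covers {m : ℕ} {q : Fin (m + 1) → ℕ} (hq : ∀ j, 3 ≤ q j)
    {σ : Fin m → Fin (m + 1)} (hσ : Function.Injective σ) (x : (Σ j, Fin (q j)) → ℤ)
    (hx : ∀ t, Odd (x t)) :
    ∃ e : (Σ j, Fin (q j)) → ℤ, (∀ t, e t = 1 ∨ e t = -1) ∧
      ∃ l ∈ AddSubgroup.closure (Set.range (emb (q := q) σ)), x = e + 2 • l := by
  set L := AddSubgroup.closure (Set.range (emb (q := q) σ)) with hL
  have hmem : ∀ v, emb (q := q) σ v ∈ L := fun v => AddSubgroup.subset_closure ⟨v, rfl⟩
  -- the column which is not matched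
  obtain ⟨j₀, hj₀⟩ : ∃ j₀, ∀ i, σ i ≠ j₀ := by
    by_contra hcon
    push Not at hcon
    have : Function.Surjective σ := hcon
    have := Fintype.card_le_of_surjective σ this
    simp at this
  -- half sums
  have hy : ∀ j, ∃ y : ℤ, ∑ s : Fin (q j), x ⟨j, s⟩ = 2 * y - q j := by
    intro j
    choose z hz using fun s : Fin (q j) => hx ⟨j, s⟩
    refine ⟨∑ s, z s + q j, ?_⟩
    rw [sum_congr rfl fun s _ => hz s, sum_add_distrib, ← mul_sum]
    simp
    ring
  choose y hy using hy
  -- the number of entries `1` in each block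
  let b : Fin (m + 1) → ℤ := fun j => if j = j₀ then 0 else (y j - y j₀) % q j
  have hq0 : ∀ j, (0 : ℤ) < q j := fun j => by have := hq j; omega
  have hb0 : ∀ j, 0 ≤ b j := fun j => by
    simp only [b]
    split_ifs
    · exact le_rfl
    · exact Int.emod_nonneg _ (hq0 j).ne'
  have hb1 : ∀ j, b j ≤ q j := fun j => by
    simp only [b]
    split_ifs
    · exact (hq0 j).le
    · exact (Int.emod_lt_of_pos _ (hq0 j)).le
  let e : (Σ j, Fin (q j)) → ℤ := fun r => if ((r.2 : ℕ) : ℤ) < b r.1 then 1 else -1
  have he : ∀ t, e t = 1 ∨ e t = -1 := fun t => by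
    simp only [e]
    split_ifs
    · exact Or.inl rfl
    · exact Or.inr rfl
  have hes : ∀ j, ∑ s : Fin (q j), e ⟨j, s⟩ = 2 * b j - q j := by
    intro j
    have h1 : ∀ s : Fin (q j), e ⟨j, s⟩ = 2 * (if ((s : ℕ) : ℤ) < b j then 1 else 0) - 1 := by
      intro s
      simp only [e]
      split_ifs <;> norm_num
    rw [sum_congr rfl fun s _ => h1 s, sum_sub_distrib, ← mul_sum]
    have h2 : ∑ s : Fin (q j), (if ((s : ℕ) : ℤ) < b j then (1 : ℤ) else 0) = b j := by
      rw [Fin.sum_univ_eq_sum_range (fun s => if ((s : ℕ) : ℤ) < b j then (1 : ℤ) else 0) (q j)]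
      obtain ⟨k, hk⟩ := Int.eq_ofNat_of_zero_le (hb0 j)
      have hkq : k ≤ q j := by
        have := hb1 j
        rw [hk] at this
        exact_mod_cast this
      rw [hk]
      simp only [Nat.cast_lt]
      rw [← sum_filter]
      have : (range (q j)).filter (fun s => s < k) = range k := by
        ext s
        simp only [mem_filter, mem_range]
        omega
      rw [this]
      simp
    rw [h2]
    simp
  -- half of the difference
  have hdiv : ∀ t, ∃ u : ℤ, x t - e t = 2 * u := by
    intro t
    obtain ⟨z, hz⟩ := hx t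
    rcases he t with h | h
    · exact ⟨z, by rw [hz, h]; ring⟩
    · exact ⟨z + 1, by rw [hz, h]; ring⟩
  choose u hu using hdiv
  refine ⟨e, he, u, ?_, ?_⟩
  · -- block sums of `u`
    have hus : ∀ j, ∑ s : Fin (q j), u ⟨j, s⟩ = y j - b j := by
      intro j
      have h1 : ∑ s : Fin (q j), (x ⟨j, s⟩ - e ⟨j, s⟩) = 2 * ∑ s : Fin (q j), u ⟨j, s⟩ := by
        rw [mul_sum]
        exact sum_congr rfl fun s _ => hu _
      rw [sum_sub_distrib, hy, hes] at h1
      linarith
    let n : Fin m → ℤ := fun i => (y (σ i) - y j₀) / q (σ i)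
    have hu' : u + y j₀ • emb σ .centre - ∑ i, n i • emb σ (.leaf i) ∈ L := by
      apply mem_of_block_sums (fun j => by have := hq j; omega) L (fun j s => hmem (.chain j s))
      intro j
      have c1 : ∑ s : Fin (q j), emb (q := q) σ .centre ⟨j, s⟩ = -1 := by
        rw [sum_eq_single_of_mem (⟨0, by have := hq j; omega⟩ : Fin (q j)) (mem_univ _)]
        · simp [emb]
        · intro s _ hs
          have : (s : ℕ) ≠ 0 := fun h => hs (Fin.ext h)
          simp [emb, this]
      have c2 : ∀ i, ∑ s : Fin (q j), emb (q := q) σ (.leaf i) ⟨j, s⟩ =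
          if j = σ i then (q j : ℤ) else 0 := by
        intro i
        by_cases h : j = σ i <;> simp [emb, h]
      have c3 : ∑ s : Fin (q j), ((u + y j₀ • emb σ .centre - ∑ i, n i • emb σ (.leaf i) :
          (Σ j, Fin (q j)) → ℤ)) ⟨j, s⟩ =
          (y j - b j) - y j₀ - ∑ i, n i * (if j = σ i then (q j : ℤ) else 0) := by
        simp only [Pi.sub_apply, Pi.add_apply, Pi.smul_apply, Finset.sum_apply, smul_eq_mul]
        rw [sum_sub_distrib, sum_add_distrib, hus, ← mul_sum, c1, sum_comm]
        rw [sum_congr rfl fun i _ => by rw [← mul_sum, c2 i]]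
        ring
      rw [c3]
      by_cases hj : j = j₀
      · have c4 : ∑ i, n i * (if j = σ i then (q j : ℤ) else 0) = 0 := by
          apply sum_eq_zero
          intro i _
          rw [if_neg, mul_zero]
          intro h
          exact hj₀ i (h.symm.trans hj)
        rw [c4]
        simp [b, hj]
      · obtain ⟨i, hi⟩ : ∃ i, σ i = j := by
          by_contra hcon
          push Not at hcon
          have h1 : Function.Injective (fun o : Option (Fin m) => (o.elim j σ : Fin (m + 1))) := by
            rintro (_ | i) (_ | k) h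
            · rfl
            · exact absurd h.symm (hcon k)
            · exact absurd h (hcon i)
            · exact congrArg some (hσ h)
          have h2 : Function.Bijective (fun o : Option (Fin m) => (o.elim j σ : Fin (m + 1))) := by
            rw [Fintype.bijective_iff_injective_and_card]
            exact ⟨h1, by simp⟩
          obtain ⟨o, ho⟩ := h2.2 j₀
          rcases o with _ | i
          · exact hj ho
          · exact hj₀ i ho
        subst hi
        have c4 : ∑ k, n k * (if σ i = σ k then (q (σ i) : ℤ) else 0) = n i * q (σ i) := by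
          rw [sum_eq_single_of_mem i (mem_univ i)]
          · rw [if_pos rfl]
          · intro k _ hk
            rw [if_neg, mul_zero]
            exact fun h => hk (hσ h).symm
        rw [c4]
        simp only [b, n, if_neg hj]
        have := Int.emod_add_mul_ediv (y (σ i) - y j₀) (q (σ i))
        linarith
    have h5 : u = (u + y j₀ • emb σ .centre - ∑ i, n i • emb σ (.leaf i)) -
        y j₀ • emb σ .centre + ∑ i, n i • emb σ (.leaf i) := by abel
    rw [h5]
    exact L.add_mem (L.sub_mem hu' (L.zsmul_mem (hmem _) _))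
      (L.sum_mem fun i _ => L.zsmul_mem (hmem _) _)
  · ext t
    have := hu t
    rw [Pi.add_apply, two_smul, Pi.add_apply]
    linarith

theorem backward {m : ℕ} (p : Fin m → ℕ) (q : Fin (m + 1) → ℕ) (hq : ∀ j, 3 ≤ q j)
    (σ : Fin m → Fin (m + 1)) (hσ : Function.Injective σ) (hpq : ∀ i, p i = q (σ i)) :
    Admissible p q := by
  let E : (Σ j, Fin (q j)) ≃ Fin (∑ j, q j) := finSigmaFinEquiv
  refine ⟨fun v t => emb σ v (E.symm t), ?_, ?_⟩
  · intro x y
    rw [← emb_form hq hσ hpq x y]
    congr 1
    rw [dotProduct, dotProduct, ← E.symm.sum_comp]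
  · intro x hx
    obtain ⟨e, he, l, hl, hxe⟩ := emb_covers hq hσ (fun r => x (E r)) fun r => hx _
    refine ⟨fun t => e (E.symm t), fun t => he _, fun t => l (E.symm t), ?_, ?_⟩
    · refine AddSubgroup.closure_induction (p := fun l _ => (fun t => l (E.symm t)) ∈
        AddSubgroup.closure (Set.range fun v t => emb (q := q) σ v (E.symm t))) ?_ ?_ ?_ ?_ hl
      · rintro _ ⟨v, rfl⟩
        exact AddSubgroup.subset_closure ⟨v, rfl⟩
      · exact AddSubgroup.zero_mem _
      · intro a b _ _ ha hb
        exact AddSubgroup.add_mem _ ha hb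
      · intro a _ ha
        exact AddSubgroup.neg_mem _ ha
    · ext t
      have := congrFun hxe (E.symm t)
      simpa using this

/-- Let `m ≥ 0`, let `q₁, …, q_{m+1} ≥ 3` be integers different from `4` (for example odd integers
`≥ 3`), and let `p₁, …, p_m` be natural numbers. The plumbing lattice of the double branched cover
of the pretzel knot `P(p₁, …, p_m, -q₁, …, -q_{m+1})` has `∑ q_j` vertices, and it has an embedding
in the standard lattice of the same rank such that each characteristic vector is congruent modulo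
twice the image to a vector with all entries `1` or `-1`, if and only if there is an injection `σ`
with `p_i = q_{σ(i)}` for all `i`. -/
theorem result (m : ℕ) (p : Fin m → ℕ) (q : Fin (m + 1) → ℕ) (hq : ∀ j, 3 ≤ q j)
    (hq4 : ∀ j, q j ≠ 4) :
    Nat.card (Vertex q) = ∑ j, q j ∧
      (Admissible p q ↔
        ∃ σ : Fin m → Fin (m + 1), Function.Injective σ ∧ ∀ i, p i = q (σ i)) := by
  refine ⟨?_, forward p q hq hq4, fun ⟨σ, hσ, h⟩ => backward p q hq σ hσ h⟩
  let f : Vertex q ≃ Unit ⊕ (Σ j, Fin (q j - 1)) ⊕ Fin m :=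
    { toFun := fun v => match v with
        | .centre => Sum.inl ()
        | .chain j s => Sum.inr (Sum.inl ⟨j, s⟩)
        | .leaf i => Sum.inr (Sum.inr i)
      invFun := fun r => match r with
        | Sum.inl _ => .centre
        | Sum.inr (Sum.inl ⟨j, s⟩) => .chain j s
        | Sum.inr (Sum.inr i) => .leaf i
      left_inv := by rintro (_ | _ | _) <;> rfl
      right_inv := by rintro (_ | ⟨_, _⟩ | _) <;> rfl }
  rw [Nat.card_congr f]
  simp only [Nat.card_eq_fintype_card, Fintype.card_sum, Fintype.card_unit, Fintype.card_sigma,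
    Fintype.card_fin]
  have : ∑ j, q j = ∑ j, (q j - 1) + (m + 1) := by
    have h1 : ∑ j, q j = ∑ j, ((q j - 1) + 1) := sum_congr rfl fun j _ => by
      have := hq j; omega
    rw [h1, sum_add_distrib]
    simp
  omega

end Pool.Agent.Results.MP_752436_gt.OddPretzelKnots
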